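import Mathlib

namespace Pool.Agent.Results.MP_f59edb_pr.Limit
open Finset Filter Topology

variable {n : ℕ}

/-- number of vertices that are not the `p`-endpoint of any edge of `G`. -/
def free (p : Fin n × Fin n → Fin n) (G : Finset (Fin n × Fin n)) : ℕ :=
  (univ.filter fun v => ∀ e ∈ G, p e ≠ v).card

/-- number of initial vertices (in-degree zero). -/
def initial (G : Finset (Fin n × Fin n)) : ℕ := free Prod.snd G

/-- number of terminal vertices (out-degree zero). -/
def terminal (G : Finset (Fin n × Fin n)) : ℕ := free Prod.fst G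

/-- the edges whose removal is not cancelled. -/
def removable (x y : ℕ) (G : Finset (Fin n × Fin n)) : Finset (Fin n × Fin n) :=
  G.filter fun e => initial (G.erase e) ≤ x ∧ terminal (G.erase e) ≤ y

/-- Probability that the process started at `G` is at an `(x,y)` graph after `k` rounds, where a
round removes a uniformly chosen removable edge, and does nothing once there is none. -/
noncomputable def succ (x y : ℕ) : ℕ → Finset (Fin n × Fin n) → ℝ
  | 0, G => if initial G = x ∧ terminal G = y then 1 else 0
  | k + 1, G => if removable x y G = ∅ then succ x y k G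
      else (∑ e ∈ removable x y G, succ x y k (G.erase e)) / (removable x y G).card

/-- the complete task-dependency graph. -/
def complete (n : ℕ) : Finset (Fin n × Fin n) := univ.filter fun e => e.1 < e.2

/-- `r x y n`: the process has stopped after as many rounds as there are edges. -/
noncomputable def r (x y n : ℕ) : ℝ := succ x y (complete n).card (complete n)

lemma succ_le (x y k : ℕ) : ∀ G : Finset (Fin n × Fin n), succ x y k G ≤ 1 := by
  induction k with
  | zero => intro G; rw [succ]; split_ifs <;> norm_num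
  | succ k ih =>
    intro G
    rw [succ]
    split_ifs with h
    · exact ih G
    · have hp : (0 : ℝ) < (removable x y G).card := by
        exact_mod_cast card_pos.2 (nonempty_iff_ne_empty.2 h)
      rw [div_le_one hp]
      simpa using sum_le_card_nsmul _ _ 1 fun e _ => ih (G.erase e)

lemma free_mono (p : Fin n × Fin n → Fin n) (G : Finset (Fin n × Fin n)) (e) :
    free p G ≤ free p (G.erase e) :=
  card_le_card fun v hv => by
    simp only [mem_filter, mem_univ, true_and] at hv ⊢
    exact fun f hf => hv f (mem_of_mem_erase hf)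

lemma free_erase (p : Fin n × Fin n → Fin n) (G : Finset (Fin n × Fin n)) (e) :
    free p (G.erase e) ≤ free p G + 1 := by
  refine le_trans (card_le_card (t := insert (p e) (univ.filter fun v => ∀ e ∈ G, p e ≠ v))
    fun v hv => ?_) (card_insert_le _ _)
  simp only [mem_filter, mem_univ, true_and, mem_insert] at hv ⊢
  by_cases h : v = p e
  · exact Or.inl h
  · refine Or.inr fun f hf => ?_
    by_cases h2 : f = e
    · subst h2; exact Ne.symm h
    · exact hv f (mem_erase.2 ⟨h2, hf⟩)

def deg (q : Fin n × Fin n → Fin n) (G : Finset (Fin n × Fin n)) (v : Fin n) : ℕ :=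
  (G.filter fun f => q f = v).card

lemma free_same (q : Fin n × Fin n → Fin n) {G : Finset (Fin n × Fin n)} {e}
    (h : 2 ≤ deg q G (q e)) : free q (G.erase e) ≤ free q G :=
  card_le_card fun v hv => by
    simp only [mem_filter, mem_univ, true_and] at hv ⊢
    intro f hf hfv
    by_cases h2 : f = e
    · subst h2
      obtain ⟨g, hg, hne⟩ := exists_mem_ne (show 1 < deg q G (q f) by omega) f
      rw [mem_filter] at hg
      exact hv g (mem_erase.2 ⟨hne, hg.1⟩) (hg.2.trans hfv)
    · exact hv f (mem_erase.2 ⟨h2, hf⟩) hfv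

noncomputable def phi (p q : Fin n × Fin n → Fin n) (y : ℕ) (e : Fin n × Fin n)
    (G : Finset (Fin n × Fin n)) : ℝ :=
  if free p G < y ∧ e ∈ G then 1 / deg q G (q e) else 0

lemma phi_nonneg (p q : Fin n × Fin n → Fin n) (y e G) : 0 ≤ phi p q y e G := by
  unfold phi; split_ifs <;> positivity

lemma phi_le (p q : Fin n × Fin n → Fin n) (y e G) : phi p q y e G ≤ 1 := by
  unfold phi
  split_ifs
  · rw [one_div]; exact Nat.cast_inv_le_one _
  · norm_num

lemma phi_step (p q : Fin n × Fin n → Fin n) (x y : ℕ) (e) {G R : Finset (Fin n × Fin n)}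
    (hx : free q G ≤ x)
    (hR : ∀ f, f ∈ R ↔ f ∈ G ∧ free q (G.erase f) ≤ x ∧ free p (G.erase f) ≤ y) :
    ∑ f ∈ R, phi p q y e (G.erase f) ≤ R.card * phi p q y e G := by
  by_cases h : free p G < y ∧ e ∈ G
  swap
  · rw [sum_eq_zero]
    · exact mul_nonneg (by positivity) (phi_nonneg _ _ _ _ _)
    intro f _
    exact if_neg fun h' => h ⟨(free_mono p G f).trans_lt h'.1, mem_of_mem_erase h'.2⟩
  have hd : 1 ≤ deg q G (q e) := card_pos.2 ⟨e, mem_filter.2 ⟨h.2, rfl⟩⟩
  rw [show phi p q y e G = 1 / deg q G (q e) from if_pos h]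
  rcases hd.eq_or_lt with h1 | h1
  · rw [← h1]
    simpa using sum_le_card_nsmul _ _ 1 fun f _ => phi_le p q y e (G.erase f)
  have hsub : R.filter (fun f => q f = q e) = G.filter fun f => q f = q e := by
    ext f
    simp only [mem_filter, hR]
    refine ⟨fun h' => ⟨h'.1.1, h'.2⟩, fun h' => ⟨⟨h'.1, ?_, ?_⟩, h'.2⟩⟩
    · exact (free_same q (by rw [h'.2]; exact h1)).trans hx
    · have := free_erase p G f; omega
  rw [← sum_filter_add_sum_filter_not R (fun f => q f = q e),
    ← card_filter_add_card_filter_not (s := R) (fun f => q f = q e), hsub]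
  have hd1 : (1 : ℝ) < deg q G (q e) := by exact_mod_cast h1
  have e1 : ∑ f ∈ G.filter (fun f => q f = q e), phi p q y e (G.erase f) ≤ 1 := by
    rw [← add_sum_erase _ _ (mem_filter.2 ⟨h.2, rfl⟩ : e ∈ G.filter fun f => q f = q e),
      show phi p q y e (G.erase e) = 0 from if_neg fun h' => notMem_erase e G h'.2, zero_add]
    refine (sum_le_card_nsmul _ _ (1 / ((deg q G (q e) : ℝ) - 1)) fun f hf => ?_).trans ?_
    · have h2 : deg q (G.erase f) (q e) + 1 = deg q G (q e) := by
        rw [deg, filter_erase, card_erase_add_one (mem_of_mem_erase hf)]; rfl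
      unfold phi
      split_ifs
      · rw [← h2]; simp
      · exact div_nonneg zero_le_one (by linarith)
    · have h3 : ((G.filter fun f => q f = q e).erase e).card + 1 = deg q G (q e) :=
        card_erase_add_one (mem_filter.2 ⟨h.2, rfl⟩ : e ∈ G.filter fun f => q f = q e)
      have h4 : (((G.filter fun f => q f = q e).erase e).card : ℝ) = deg q G (q e) - 1 := by
        rw [← h3]; simp
      rw [nsmul_eq_mul, h4]
      exact le_of_eq (mul_one_div_cancel (sub_pos.2 hd1).ne')
  have e2 : ∑ f ∈ R.filter (fun f => ¬ q f = q e), phi p q y e (G.erase f) ≤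
      (R.filter (fun f => ¬ q f = q e)).card * (1 / (deg q G (q e) : ℝ)) := by
    rw [← nsmul_eq_mul]
    refine sum_le_card_nsmul _ _ _ fun f hf => ?_
    have h2 : deg q (G.erase f) (q e) = deg q G (q e) := by
      have h3 : f ∉ G.filter fun f => q f = q e := fun h' => (mem_filter.1 hf).2 (mem_filter.1 h').2
      rw [deg, filter_erase, erase_eq_of_notMem h3]
      rfl
    unfold phi
    split_ifs
    · rw [h2]
    · positivity
  have e3 : ((G.filter fun f => q f = q e).card : ℝ) * (1 / (deg q G (q e) : ℝ)) = 1 :=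
    mul_one_div_cancel (by linarith : (deg q G (q e) : ℝ) ≠ 0)
  push_cast
  linarith

lemma phi_stop (p q : Fin n × Fin n → Fin n) (x y : ℕ) {G : Finset (Fin n × Fin n)}
    (hx : free q G ≤ x) (hy : free p G < y)
    (hR : ∀ f ∈ G, ¬ (free q (G.erase f) ≤ x ∧ free p (G.erase f) ≤ y))
    (T : Finset (Fin n)) (hT : y ≤ T.card) : ∃ e ∈ G, p e ∈ T ∧ phi p q y e G = 1 := by
  obtain ⟨v, hv, h2⟩ : ∃ v ∈ T, v ∉ univ.filter fun v => ∀ e ∈ G, p e ≠ v := by
    by_contra hh
    have := card_le_card (show T ⊆ univ.filter fun v => ∀ e ∈ G, p e ≠ v from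
      fun v hv => by_contra fun h => hh ⟨v, hv, h⟩)
    unfold free at hy
    omega
  simp only [mem_filter, mem_univ, true_and, not_forall, not_not] at h2
  obtain ⟨e, he, rfl⟩ := h2
  refine ⟨e, he, hv, ?_⟩
  have hd : 1 ≤ deg q G (q e) := card_pos.2 ⟨e, mem_filter.2 ⟨he, rfl⟩⟩
  have h1 : deg q G (q e) = 1 := by
    by_contra hh
    exact hR e he ⟨(free_same q (by omega)).trans hx, by have := free_erase p G e; omega⟩
  simp [phi, hy, he, h1]

noncomputable def Psi (x y : ℕ) (A B : Finset (Fin n)) (G : Finset (Fin n × Fin n)) : ℝ :=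
  ∑ e ∈ (complete n).filter (fun e => e.1 ∈ B), phi Prod.fst Prod.snd y e G +
    ∑ e ∈ (complete n).filter (fun e => e.2 ∈ A), phi Prod.snd Prod.fst x e G

lemma main (x y : ℕ) (A B : Finset (Fin n)) (hA : x ≤ A.card) (hB : y ≤ B.card) (k : ℕ) :
    ∀ G : Finset (Fin n × Fin n), G ⊆ complete n → initial G ≤ x → terminal G ≤ y →
      (removable x y G = ∅ ∨ G.card ≤ k) → 1 - Psi x y A B G ≤ succ x y k G := by
  have n1 : ∀ G, 0 ≤ ∑ e ∈ (complete n).filter (fun e => e.1 ∈ B), phi Prod.fst Prod.snd y e G :=
    fun G => sum_nonneg fun e _ => phi_nonneg _ _ _ _ _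
  have n2 : ∀ G, 0 ≤ ∑ e ∈ (complete n).filter (fun e => e.2 ∈ A), phi Prod.snd Prod.fst x e G :=
    fun G => sum_nonneg fun e _ => phi_nonneg _ _ _ _ _
  induction k with
  | zero =>
    intro G h1 h2 h3 h4
    have h5 : removable x y G = ∅ := by
      rcases h4 with h | h
      · exact h
      · rw [card_eq_zero.1 (Nat.le_zero.1 h)]; rfl
    rw [removable, filter_eq_empty_iff] at h5
    rw [succ, Psi]
    split_ifs with h
    · linarith [n1 G, n2 G]
    by_cases h6 : terminal G < y
    · obtain ⟨e, he, h7, h8⟩ := phi_stop Prod.fst Prod.snd x y h2 h6 (fun f hf => h5 hf) B hB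
      have := single_le_sum (f := fun e => phi Prod.fst Prod.snd y e G)
        (fun e _ => phi_nonneg _ _ _ _ _) (mem_filter.2 ⟨h1 he, h7⟩ :
          e ∈ (complete n).filter (fun e => e.1 ∈ B))
      linarith [n2 G]
    · obtain ⟨e, he, h7, h8⟩ := phi_stop Prod.snd Prod.fst y x h3 (show initial G < x by omega)
        (fun f hf h' => h5 hf h'.symm) A hA
      have := single_le_sum (f := fun e => phi Prod.snd Prod.fst x e G)
        (fun e _ => phi_nonneg _ _ _ _ _) (mem_filter.2 ⟨h1 he, h7⟩ :
          e ∈ (complete n).filter (fun e => e.2 ∈ A))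
      linarith [n1 G]
  | succ k ih =>
    intro G h1 h2 h3 h4
    rw [succ]
    split_ifs with h
    · exact ih G h1 h2 h3 (Or.inl h)
    have hp : (0 : ℝ) < (removable x y G).card := by
      exact_mod_cast card_pos.2 (nonempty_iff_ne_empty.2 h)
    rw [le_div_iff₀ hp]
    refine le_trans ?_ (sum_le_sum fun e he => ih (G.erase e) ((erase_subset _ _).trans h1)
      (mem_filter.1 he).2.1 (mem_filter.1 he).2.2 (Or.inr (by
        have := card_erase_add_one (mem_filter.1 he).1
        rcases h4 with h4 | h4
        · exact absurd h4 h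
        · omega)))
    have s1 := sum_le_sum fun e (_ : e ∈ (complete n).filter (fun e => e.1 ∈ B)) =>
      phi_step Prod.fst Prod.snd x y e (R := removable x y G) h2 fun f => mem_filter
    have s2 := sum_le_sum fun e (_ : e ∈ (complete n).filter (fun e => e.2 ∈ A)) =>
      phi_step Prod.snd Prod.fst y x e (R := removable x y G) h3 fun f =>
        mem_filter.trans (and_congr_right fun _ => and_comm)
    rw [sum_comm, ← mul_sum] at s1 s2
    simp only [Psi, sum_sub_distrib, sum_add_distrib, sum_const, nsmul_eq_mul]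
    linarith

lemma free_complete (p : Fin n × Fin n → Fin n) (v : Fin n)
    (h : ∀ w, w ≠ v → ∃ e ∈ complete n, p e = w) : free p (complete n) ≤ 1 := by
  refine le_trans (card_le_card (t := {v}) fun w hw => ?_) (by simp)
  rw [mem_singleton]
  by_contra hh
  obtain ⟨e, he, h2⟩ := h w hh
  exact (mem_filter.1 hw).2 e he h2

lemma bound (x y m : ℕ) (hx : 1 ≤ x) (hy : 1 ≤ y) (hm : 1 ≤ m) :
    1 - ((y : ℝ) * y + x * x) / m ≤ r x y (m + x + y) := by
  set N := m + x + y with hN
  let A : Finset (Fin N) := Iio ⟨x, by omega⟩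
  let B : Finset (Fin N) := Ici ⟨m + x, by omega⟩
  have cA : A.card = x := by simp [A]
  have cB : B.card = y := by simp [B]; omega
  have hm0 : (0 : ℝ) < m := by exact_mod_cast hm
  refine le_trans ?_ (main x y A B cA.ge cB.ge _ _ Subset.rfl
    ((free_complete _ ⟨0, by omega⟩ fun w hw => ⟨(⟨0, by omega⟩, w), by
      simp only [complete, mem_filter, mem_univ, true_and, Fin.lt_def]
      exact Nat.pos_of_ne_zero fun h => hw (Fin.ext h), rfl⟩).trans hx)
    ((free_complete _ ⟨N - 1, by omega⟩ fun w hw => ⟨(w, ⟨N - 1, by omega⟩), by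
      simp only [complete, mem_filter, mem_univ, true_and, Fin.lt_def]
      have := w.2
      have : w.1 ≠ N - 1 := fun h => hw (Fin.ext h)
      omega, rfl⟩).trans hy) (Or.inr le_rfl))
  have key : ∀ (p q : Fin N × Fin N → Fin N) (z : ℕ) (S : Finset (Fin N × Fin N))
      (T : Finset (Fin N)), S ⊆ T ×ˢ T → (∀ e ∈ S, m ≤ deg q (complete N) (q e)) →
      ∑ e ∈ S, phi p q z e (complete N) ≤ (T.card * T.card) / m := by
    intro p q z S T h1 h2
    refine (sum_le_card_nsmul _ _ (1 / (m : ℝ)) fun e he => ?_).trans ?_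
    · unfold phi
      split_ifs
      · exact one_div_le_one_div_of_le hm0 (by exact_mod_cast h2 e he)
      · positivity
    · rw [nsmul_eq_mul, mul_one_div]
      have := card_le_card h1
      rw [card_product] at this
      gcongr
      exact_mod_cast this
  have k1 := key Prod.fst Prod.snd y ((complete N).filter fun e => e.1 ∈ B) B
    (fun e he => by
      simp only [complete, mem_filter, mem_univ, true_and, B, mem_Ici] at he
      exact mem_product.2 ⟨mem_Ici.2 he.2, mem_Ici.2 (he.2.trans he.1.le)⟩)
    (fun e he => by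
      simp only [complete, mem_filter, mem_univ, true_and, B, mem_Ici, Fin.le_def,
        Fin.lt_def] at he
      refine le_trans ?_ (card_le_card_of_injOn (s := Iio e.2) (fun a => (a, e.2))
        (fun a ha => by simpa [complete] using ha) fun a _ b _ h => (Prod.ext_iff.1 h).1)
      simp; omega)
  have k2 := key Prod.snd Prod.fst x ((complete N).filter fun e => e.2 ∈ A) A
    (fun e he => by
      simp only [complete, mem_filter, mem_univ, true_and, A, mem_Iio] at he
      exact mem_product.2 ⟨mem_Iio.2 (he.1.trans he.2), mem_Iio.2 he.2⟩)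
    (fun e he => by
      simp only [complete, mem_filter, mem_univ, true_and, A, mem_Iio, Fin.lt_def] at he
      refine le_trans ?_ (card_le_card_of_injOn (s := Ioi e.1) (fun a => (e.1, a))
        (fun a ha => by simpa [complete] using ha) fun a _ b _ h => (Prod.ext_iff.1 h).2)
      simp; omega)
  rw [cB] at k1
  rw [cA] at k2
  rw [Psi, add_div]
  linarith

theorem result (x y : ℕ) (hx : 1 ≤ x) (hy : 1 ≤ y) :
    Tendsto (fun n => r x y n) atTop (𝓝 1) := by
  rw [← tendsto_add_atTop_iff_nat (x + y)]
  have h1 : Tendsto (fun m : ℕ => 1 - ((y : ℝ) * y + x * x) / m) atTop (𝓝 (1 - 0)) :=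
    tendsto_const_nhds.sub (tendsto_const_div_atTop_nhds_zero_nat _)
  rw [sub_zero] at h1
  refine tendsto_of_tendsto_of_tendsto_of_le_of_le' h1 tendsto_const_nhds ?_
    (Eventually.of_forall fun m => succ_le _ _ _ _)
  filter_upwards [eventually_ge_atTop 1] with m hm
  rw [← Nat.add_assoc]
  exact bound x y m hx hy hm

end Pool.Agent.Results.MP_f59edb_pr.Limit
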